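import Pool.Agent.helper38.OP.Spec

set_option autoImplicit false

namespace Pool.Agent.OP

open Finset Real Pool.Agent.AT Pool.Agent.helper85.FC Pool.Agent.OM

theorem AVG_re (M N ρ : ℕ) (hρ : ρ < M) (F : ℕ → ℝ) :
    ∑ x ∈ range (M * N) with x % M = ρ, F x = ∑ x ∈ range N, F (ρ + M * x) := by
  have hM : 0 < M := by omega
  symm
  refine Finset.sum_nbij' (fun x => ρ + M * x) (fun x => x / M) ?_ ?_ ?_ ?_ ?_
  · intro x hx
    have hx1 := Finset.mem_range.mp hx
    rw [Finset.mem_filter, Finset.mem_range]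
    refine ⟨?_, ?_⟩
    · have h1 : M * (x + 1) ≤ M * N := Nat.mul_le_mul_left M hx1
      have h2 : M * (x + 1) = M * x + M := by ring
      show ρ + M * x < M * N
      omega
    · show (ρ + M * x) % M = ρ
      rw [Nat.add_mul_mod_self_left, Nat.mod_eq_of_lt hρ]
  · intro x hx
    have hx1 := (Finset.mem_filter.mp hx).1
    rw [Finset.mem_range] at hx1 ⊢
    exact Nat.div_lt_of_lt_mul hx1
  · intro x _
    show (ρ + M * x) / M = x
    rw [Nat.add_mul_div_left _ _ hM, Nat.div_eq_of_lt hρ, zero_add]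
  · intro x hx
    have hx2 := (Finset.mem_filter.mp hx).2
    show ρ + M * (x / M) = x
    have h := Nat.mod_add_div x M
    omega
  · intro x _
    rfl

theorem AVG (hAV1 : AV1_stmt) : AVG_stmt := by
  intro a b L M N κ ε ha hab hM hκ hκ1 hε hε1 T hT B hB hs i hi j hj ρ hρ y hy
  set m : ℕ := i - j with hm
  have hmL : m ∈ Ico 1 L := by
    rw [Finset.mem_Ico]
    omega
  obtain ⟨hT1, hT2, hT3⟩ := hT m hmL
  have hMz : (0 : ℤ) < (M : ℤ) := by exact_mod_cast hM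
  have hb1 : 1 ≤ b := ha.trans hab
  set z' : ℤ := (b : ℤ) ^ m * ρ - (a : ℤ) ^ m * ((y % M : ℕ) : ℤ) with hz'
  set r : ℤ := z' % M with hr
  set z : ℤ := z' / M with hz
  have hr0 : 0 ≤ r := Int.emod_nonneg _ hMz.ne'
  have hr1 : r < M := Int.emod_lt_of_pos _ hMz
  have hzr : r + M * z = z' := Int.emod_add_mul_ediv z' M
  obtain ⟨r', hr'⟩ := Int.eq_ofNat_of_zero_le hr0
  have hr'M : r' < M := by
    have : (r' : ℤ) < M := by rw [← hr']; exact hr1
    exact_mod_cast this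
  have hyM : (y % M : ℕ) < M := Nat.mod_lt _ hM
  have ham : (1 : ℤ) ≤ (a : ℤ) ^ m := one_le_pow₀ (by exact_mod_cast ha)
  have hbm : (1 : ℤ) ≤ (b : ℤ) ^ m := one_le_pow₀ (by exact_mod_cast hb1)
  have habm : (a : ℤ) ^ m ≤ (b : ℤ) ^ m := pow_le_pow_left₀ (by positivity) (by exact_mod_cast hab) m
  have hzabs : |z| ≤ ((b ^ m : ℕ) : ℤ) := by
    push_cast
    rw [abs_le]
    have hρz : (ρ : ℤ) ≤ M := by exact_mod_cast hρ.le
    have hρ0 : (0 : ℤ) ≤ (ρ : ℤ) := by positivity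
    have hy0 : (0 : ℤ) ≤ ((y % M : ℕ) : ℤ) := by positivity
    have hy1 : ((y % M : ℕ) : ℤ) ≤ M := by exact_mod_cast hyM.le
    have h1 : (b : ℤ) ^ m * ρ ≤ (b : ℤ) ^ m * M := mul_le_mul_of_nonneg_left hρz (by linarith)
    have h2 : (a : ℤ) ^ m * ((y % M : ℕ) : ℤ) ≤ (b : ℤ) ^ m * M :=
      mul_le_mul habm hy1 hy0 (by linarith)
    have h3 : 0 ≤ (b : ℤ) ^ m * ρ := by positivity
    have h4 : 0 ≤ (a : ℤ) ^ m * ((y % M : ℕ) : ℤ) := by positivity
    constructor
    · rw [hz]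
      apply Int.le_ediv_of_mul_le hMz
      have : -(b : ℤ) ^ m * (M : ℤ) = -((b : ℤ) ^ m * M) := by ring
      rw [this]
      linarith
    · rw [hz]
      have h5 : z' ≤ (b : ℤ) ^ m * M := by linarith
      calc z' / M ≤ ((b : ℤ) ^ m * M) / M := Int.ediv_le_ediv hMz h5
        _ = (b : ℤ) ^ m := Int.mul_ediv_cancel _ hMz.ne'
  set g : ℤ → ℝ := fun u => B m (r + M * u) with hg
  have hsum : ε * (((b ^ m : ℕ) : ℝ) * N) ≤ ∑ u ∈ range (b ^ m * N), g (u : ℤ) := by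
    have h1 := hs m hmL r' hr'M
    have e1 : b ^ m * (M * N) = M * (b ^ m * N) := by ring
    rw [e1, AVG_re M (b ^ m * N) r' hr'M (fun v => B m (v : ℤ))] at h1
    push_cast
    refine h1.trans (le_of_eq ?_)
    apply Finset.sum_congr rfl
    intro u _
    rw [hg]
    show B m (((r' + M * u : ℕ)) : ℤ) = B m (r + M * (u : ℤ))
    rw [hr']
    push_cast
    rfl
  have hAV := hAV1 N (T m) (b ^ m) z κ ε (Nat.one_le_pow _ _ hb1) hT1 hκ hκ1 hε hε1 hzabs (by push_cast; exact hT2)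
    (by push_cast; exact hT3) g (fun x => hB m _) hsum
  rw [AVG_re M N ρ hρ (fun x => ff a b M κ T B (i, x) (j, y))]
  have hkey : ∀ x ∈ range N, (∑ t ∈ range (T m), g (z + ((b ^ m : ℕ) : ℤ) * x + t)) / T m - 2 * κ ≤
      ff a b M κ T B (i, ρ + M * x) (j, y) := by
    intro x _
    unfold ff PQ sm
    refine le_trans (le_of_eq ?_) (le_max_right _ _)
    congr 2
    apply Finset.sum_congr rfl
    intro t _
    rw [hg]
    show B m (r + M * (z + ((b ^ m : ℕ) : ℤ) * x + t)) = B (i - j) _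
    rw [← hm]
    congr 1
    have e2 : (r : ℤ) + M * (z + ((b ^ m : ℕ) : ℤ) * x + t) = (r + M * z) + M * (((b ^ m : ℕ) : ℤ) * x) + M * t := by ring
    rw [e2, hzr, hz']
    push_cast
    ring
  have hfin := Finset.sum_le_sum hkey
  rw [Finset.sum_sub_distrib] at hfin
  simp only [Finset.sum_const, Finset.card_range, nsmul_eq_mul] at hfin
  have e3 : (ε - 5 * κ) * N = (ε - 3 * κ) * N - (N : ℝ) * (2 * κ) := by ring
  rw [e3]
  linarith

end Pool.Agent.OP
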